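import Pool.Agent.Lib.MP_372ad9_gt.AzFin

/-!
# The Bonahon-Wong-Yang volume conjecture for surface diffeomorphisms is false

`S` is the once-punctured torus with fundamental group `⟨a, b⟩`, `φ` the product of two Dehn twists
along `a` and two along `b` (homology matrix `(5, 2; 2, 1)`, trace `6`, pseudo-Anosov), `γ` a
representation whose character and its complex conjugate are `φ`-invariant, with trace `-2` around
the puncture, and `θ = 2 π i`. For every odd `n ≥ 3` the numbers `|Tr Λ|` attached to `γ` and to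
the conjugate of `γ` (same `φ`, same `θ`) have product `1`. So `(1 / n) log |Tr Λ|` cannot tend to
`v / (4 π)` for both, whatever the nonzero number `v`.
-/

namespace Pool.Agent.Results.MP_372ad9_gt.VolumeConjecture

open _root_.MP_372ad9_gt Filter Topology

theorem result :
    (phiStar ga = ga * (ga * (ga * gb)) * (ga * (ga * gb)) ∧ phiStar gb = ga * (ga * gb)) ∧
    ∃ γ : FreeGroup (Fin 2) →* SL2,
      (trw γ ga ^ 2 = 2 + 2 * Complex.I ∧ trw γ gb = (starRingEnd ℂ) (trw γ ga) ∧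
        trw γ (ga * gb) = Real.sqrt 2 * (1 - Complex.I)) ∧
      (∀ w, trw γ (phiStar w) = trw γ w) ∧
      (∀ w, trw (cj γ) (phiStar w) = trw (cj γ) w) ∧
      trw γ (ga * gb * ga⁻¹ * gb⁻¹) =
        -Complex.exp (2 * Real.pi * Complex.I) - Complex.exp (-(2 * Real.pi * Complex.I)) ∧
      trw (cj γ) (ga * gb * ga⁻¹ * gb⁻¹) =
        -Complex.exp (2 * Real.pi * Complex.I) - Complex.exp (-(2 * Real.pi * Complex.I)) ∧
      (∀ s : ℤ, s = 1 ∨ s = -1 → ∀ n : ℕ, Odd n → 3 ≤ n →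
        (∃! t : ℝ, IsAbsTrace s n γ (2 * Real.pi * Complex.I) t) ∧
        (∃! t : ℝ, IsAbsTrace s n (cj γ) (2 * Real.pi * Complex.I) t) ∧
        ∀ t t' : ℝ, IsAbsTrace s n γ (2 * Real.pi * Complex.I) t →
          IsAbsTrace s n (cj γ) (2 * Real.pi * Complex.I) t' → t * t' = 1) ∧
      ∀ s : ℤ, s = 1 ∨ s = -1 → ∀ v : ℝ, v ≠ 0 →
        ¬ (Asymp s γ (2 * Real.pi * Complex.I) v ∧
          Asymp s (cj γ) (2 * Real.pi * Complex.I) v) := by
  refine ⟨⟨?_, ?_⟩, ?_⟩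
  · simp only [phiStar, MonoidHom.comp_apply, azchar_grpB_a, azchar_grpB_b, azchar_grpA_a,
      azchar_grpA_b, map_mul]
  · simp only [phiStar, MonoidHom.comp_apply, azchar_grpB_b, azchar_grpA_a,
      azchar_grpA_b, map_mul]
  obtain ⟨ξ, η, ζ, d1, d2, d3, d4, d5, d6⟩ := exists_data
  obtain ⟨γ, g0, g1, g2⟩ := exists_gamma ξ η ζ
  have hI : Complex.I ^ 2 = -1 := Complex.I_sq
  have hξ0 : ξ ≠ 0 := by
    intro h0
    rw [h0] at d1
    have := congrArg Complex.re d1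
    simp at this
  have hη2 : η ^ 2 = 2 - 2 * Complex.I := by
    rw [d2, ← map_pow, d1, map_add, map_mul, Complex.conj_I, map_ofNat]
    ring
  have c0 : trw (cj γ) ga = trw γ gb := by rw [trw_cj, g0, g1, d2]
  have c1 : trw (cj γ) gb = trw γ ga := by
    rw [trw_cj, g0, g1, d2, Complex.conj_conj]
  have c2 : trw (cj γ) (ga * gb) = trw γ ga * trw γ gb - trw γ (ga * gb) := by
    rw [trw_cj, g0, g1, g2, d5]
  have fix : (ξ * η - ζ) * η - ξ = ξ := by
    apply mul_left_cancel₀ hξ0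
    have e1 : ξ * ((ξ * η - ζ) * η - ξ) = ξ ^ 2 * η ^ 2 - (ξ * ζ) * η - ξ ^ 2 := by ring
    rw [e1, d4]
    have e2 : ξ ^ 2 * η ^ 2 - 2 * η * η - ξ ^ 2 = ξ ^ 2 * η ^ 2 - 2 * η ^ 2 - ξ ^ 2 := by ring
    rw [e2, hη2, ← sq, d1]
    linear_combination (-4) * hI
  have hcom : trw γ (ga * gb * ga⁻¹ * gb⁻¹) = -2 := by
    rw [trw_comm, g0, g1, g2, d1, hη2, d3]
    have e1 : ξ * η * ζ = 2 * η ^ 2 := by linear_combination η * d4
    rw [e1, hη2]
    ring
  have hexp : -Complex.exp (2 * Real.pi * Complex.I) -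
      Complex.exp (-(2 * Real.pi * Complex.I)) = -2 := by
    rw [Complex.exp_neg, Complex.exp_two_pi_mul_I]
    norm_num
  have key : ∀ s : ℤ, s = 1 ∨ s = -1 → ∀ n : ℕ, Odd n → 3 ≤ n →
      (∃! t : ℝ, IsAbsTrace s n γ (2 * Real.pi * Complex.I) t) ∧
      (∃! t : ℝ, IsAbsTrace s n (cj γ) (2 * Real.pi * Complex.I) t) ∧
      ∀ t t' : ℝ, IsAbsTrace s n γ (2 * Real.pi * Complex.I) t →
        IsAbsTrace s n (cj γ) (2 * Real.pi * Complex.I) t' → t * t' = 1 := by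
    intro s hs n hn h3
    have : NeZero n := ⟨by omega⟩
    have c : CPt n (rootA s n ^ 2 + (rootA s n ^ 2)⁻¹) (trw γ ga) (trw γ gb)
        (trw γ (ga * gb)) := by
      rw [g0, g1, g2]
      exact data_cpt (par_root hs hn h3) d1 d3 d4
    have c' : CPt n (rootA s n ^ 2 + (rootA s n ^ 2)⁻¹) (trw (cj γ) ga) (trw (cj γ) gb)
        (trw (cj γ) (ga * gb)) := by
      rw [c0, c1, c2]
      exact c.S
    obtain ⟨t, ht⟩ := exists_abs hs hn h3 c
    obtain ⟨t', ht'⟩ := exists_abs hs hn h3 c'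
    exact ⟨⟨t, ht, fun u hu => unique_abs hs hn h3 c hu ht⟩,
      ⟨t', ht', fun u hu => unique_abs hs hn h3 c' hu ht'⟩,
      fun u u' hu hu' => prod_abs hs hn h3 c c0 c1 c2 hu hu'⟩
  refine ⟨γ, ⟨by rw [g0]; exact d1, by rw [g0, g1]; exact d2, by rw [g2]; exact d6⟩,
    ?_, ?_, ?_, ?_, key, ?_⟩
  · apply phi_inv γ
    · rw [g0, g1, g2]; exact d4
    · rw [g0, g1, g2]; exact fix
  · apply phi_inv (cj γ)
    · rw [trw_cj, trw_cj, trw_cj, ← map_mul, g0, g1, g2, d4, map_mul, map_ofNat]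
    · rw [trw_cj, trw_cj, trw_cj, ← map_mul, ← map_sub, ← map_mul, ← map_sub, g0, g1, g2, fix]
  · rw [hcom, hexp]
  · rw [trw_cj, hcom, hexp, map_neg, map_ofNat]
  · rintro s hs v hv ⟨H, H'⟩
    have ex : ∀ n : ℕ, ∃ t : ℝ, Odd n → 3 ≤ n →
        IsAbsTrace s n γ (2 * Real.pi * Complex.I) t := by
      intro n
      by_cases h : Odd n ∧ 3 ≤ n
      · obtain ⟨t, ht, _⟩ := (key s hs n h.1 h.2).1
        exact ⟨t, fun _ _ => ht⟩
      · exact ⟨0, fun h1 h2 => absurd ⟨h1, h2⟩ h⟩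
    have ex' : ∀ n : ℕ, ∃ t : ℝ, Odd n → 3 ≤ n →
        IsAbsTrace s n (cj γ) (2 * Real.pi * Complex.I) t := by
      intro n
      by_cases h : Odd n ∧ 3 ≤ n
      · obtain ⟨t, ht, _⟩ := (key s hs n h.1 h.2).2.1
        exact ⟨t, fun _ _ => ht⟩
      · exact ⟨0, fun h1 h2 => absurd ⟨h1, h2⟩ h⟩
    choose t ht using ex
    choose t' ht' using ex'
    have l1 := H t ht
    have l2 := H' t' ht'
    have l3 := l1.add l2
    have hz : (fun m : ℕ => 1 / (2 * m + 3 : ℝ) * Real.log (t (2 * m + 3)) +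
        1 / (2 * m + 3 : ℝ) * Real.log (t' (2 * m + 3))) = fun _ => 0 := by
      funext m
      have ho : Odd (2 * m + 3) := ⟨m + 1, by ring⟩
      have h3 : 3 ≤ 2 * m + 3 := by omega
      have hp := (key s hs (2 * m + 3) ho h3).2.2 _ _ (ht _ ho h3) (ht' _ ho h3)
      have n0 : t (2 * m + 3) ≠ 0 := left_ne_zero_of_mul_eq_one hp
      have n1 : t' (2 * m + 3) ≠ 0 := right_ne_zero_of_mul_eq_one hp
      rw [← mul_add, ← Real.log_mul n0 n1, hp, Real.log_one, mul_zero]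
    rw [hz] at l3
    have h4 := tendsto_nhds_unique l3 tendsto_const_nhds
    apply hv
    have hpi : (4 * Real.pi : ℝ) ≠ 0 := by positivity
    have h5 : v / (4 * Real.pi) = 0 := by linarith
    rcases div_eq_zero_iff.mp h5 with h6 | h6
    · exact h6
    · exact absurd h6 hpi

end Pool.Agent.Results.MP_372ad9_gt.VolumeConjecture
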